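import Pool.Agent.Helper774.KStab.NotKss
import Pool.Agent.Helper774.KStab.FibreZero

/-!
K-semistability of the general fibre of a smooth Fano fibration: the answer is no.
`X = P(O(1,0) + O(0,1))` over `P^1 × P^1` (the blow-up of `P^3` in two disjoint lines) is a
K-semistable Fano threefold, the projection `X → P^1` is smooth, and all its fibres are
del Pezzo surfaces `F_1` (the projective plane blown up in a point), which are not K-semistable.
-/

namespace Pool.Agent.Results.MP_b3209a_ag.UnstableFibres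

open Pool.Agent.Helper774.KStab

/-- There is a smooth morphism `f : X → Y` of Fano varieties with `X` K-semistable such that the fibre
over every closed point of `Y` is a Fano variety which is not K-semistable. -/
theorem result : ∃ (X Y : Variety) (f : Morph X Y),
    X.IsFano ∧ Y.IsFano ∧ f.IsSmooth ∧ X.KSemistable ∧
      ∀ y : ClosedPoint Y, ∃ F : Variety, f.IsFibre y F ∧ F.IsFano ∧ ¬ F.KSemistable := by
  obtain ⟨K₁, i1, i2, ⟨T₁⟩⟩ := exists_torusField 1
  obtain ⟨K₂, i3, i4, ⟨T₂⟩⟩ := exists_torusField 2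
  obtain ⟨K₃, i5, i6, ⟨T₃⟩⟩ := exists_torusField 3
  obtain ⟨f, hφ, hj, hsm⟩ := exists_morph T₁ T₃
  refine ⟨toricVariety T₃ dataX, toricVariety T₁ dataP1, f, toric_isFano T₃ dataX,
    toric_isFano T₁ dataP1, hsm, toric_KSemistable T₃ dataX dataX_bounded dataX_bary,
    fun y => ⟨toricVariety T₂ dataF1, ?_, toric_isFano T₂ dataF1, dataF1_not_KSemistable T₂⟩⟩
  by_cases h : y.Regular (T₁.χ ![1]) ∧ y.Regular (T₁.χ ![1])⁻¹
  · exact (fibre_F1 T₁ T₂ T₃ f hφ hj y h.1 h.2).isFibre
  · exact (fibre_F1_zero T₁ T₂ T₃ f hφ hj y h).isFibre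

end Pool.Agent.Results.MP_b3209a_ag.UnstableFibres
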